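import Pool.Agent.H610.HD.Stm

set_option autoImplicit false

/-!
# Arcs on the circle (subtask of helper610, by helper284)
-/

open MeasureTheory Set Filter

namespace Pool.Agent.H284.HD610

open Pool.Agent.H610.HD

/-- disjoint balls on the circle have total length at most `2π` -/
theorem sum_le {ι : Type} (s : Finset ι) (r : ι → ℝ) (θ : ι → AddCircle (2 * Real.pi))
    (hr : ∀ j ∈ s, 0 ≤ r j ∧ r j ≤ Real.pi)
    (hd : ∀ j ∈ s, ∀ k ∈ s, j ≠ k → r j + r k ≤ dist (θ j) (θ k)) :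
    ∑ j ∈ s, r j ≤ Real.pi := by
  have : Fact (0 < 2 * Real.pi) := ⟨Real.two_pi_pos⟩
  have h1 : volume (⋃ j ∈ s, Metric.ball (θ j) (r j)) =
      ∑ j ∈ s, volume (Metric.ball (θ j) (r j)) := by
    refine measure_biUnion_finset ?_ (fun j _ => Metric.isOpen_ball.measurableSet)
    intro j hj k hk hjk
    exact Metric.ball_disjoint_ball (hd j hj k hk hjk)
  have h2 : ∀ j ∈ s, volume (Metric.ball (θ j) (r j)) = ENNReal.ofReal (2 * r j) := by
    intro j hj
    rw [← measure_congr (AddCircle.closedBall_ae_eq_ball (x := θ j) (ε := r j)),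
      AddCircle.volume_closedBall, min_eq_right (by linarith [(hr j hj).2])]
  rw [Finset.sum_congr rfl h2, ← ENNReal.ofReal_sum_of_nonneg
    (fun j hj => by linarith [(hr j hj).1])] at h1
  have h3 : volume (⋃ j ∈ s, Metric.ball (θ j) (r j)) ≤ ENNReal.ofReal (2 * Real.pi) := by
    rw [← AddCircle.measure_univ]
    exact measure_mono (subset_univ _)
  rw [h1] at h3
  have h4 := (ENNReal.ofReal_le_ofReal_iff Real.two_pi_pos.le).1 h3
  rw [← Finset.mul_sum] at h4
  linarith

theorem g_eq (t : ℝ) : g t = t - Real.sin (2 * t) / 2 := by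
  unfold g
  rw [Real.sin_two_mul]
  ring

theorem g_six : g (Real.pi / 6) = Real.pi / 6 - √3 / 4 := by
  unfold g
  rw [Real.sin_pi_div_six, Real.cos_pi_div_six]
  ring

/-- the constants -/
theorem consts : (1 : ℝ) / 6 ≤ 6 / Real.pi * g (Real.pi / 6) ∧
    (1 : ℝ) / 8 ≤ 6 / Real.pi * (1 / 2 - √3 / 4) := by
  have hpi := Real.pi_pos
  have h1 := Real.pi_gt_d4
  have h2 := Real.pi_lt_d4
  have h3 : √3 ≤ 1.7321 := by
    rw [Real.sqrt_le_left (by norm_num)]
    norm_num
  rw [g_six]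
  constructor
  · rw [div_mul_eq_mul_div, le_div_iff₀ hpi]
    nlinarith
  · rw [div_mul_eq_mul_div, le_div_iff₀ hpi]
    nlinarith

theorem h_low (t : ℝ) (h0 : 0 ≤ t) (h1 : t ≤ Real.pi / 12) :
    6 / Real.pi * (1 / 2 - √3 / 4) * t ≤ 6 / Real.pi * g (Real.pi / 6) * t - g t := by
  have hpi := Real.pi_pos
  have hc := strictConcaveOn_sin_Icc.concaveOn
  have h2 := hc.2 (show (0 : ℝ) ∈ Icc 0 Real.pi from ⟨le_refl _, hpi.le⟩)
    (show Real.pi / 6 ∈ Icc 0 Real.pi from ⟨by positivity, by linarith⟩)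
    (show 0 ≤ 1 - 12 * t / Real.pi by
      rw [sub_nonneg, div_le_one hpi]
      linarith)
    (show 0 ≤ 12 * t / Real.pi by positivity) (by ring)
  simp only [smul_eq_mul, Real.sin_zero, mul_zero, zero_add, Real.sin_pi_div_six] at h2
  have h3 : 12 * t / Real.pi * (Real.pi / 6) = 2 * t := by
    field_simp
    ring
  rw [h3] at h2
  rw [g_eq t, g_six]
  have h4 : 6 / Real.pi * (Real.pi / 6 - √3 / 4) * t - (t - Real.sin (2 * t) / 2) =
      6 / Real.pi * (1 / 2 - √3 / 4) * t + (Real.sin (2 * t) - 12 * t / Real.pi * (1 / 2)) / 2 := by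
    field_simp
    ring
  rw [h4]
  linarith

theorem h_high (t : ℝ) (h0 : Real.pi / 12 ≤ t) (h1 : t ≤ Real.pi / 6) :
    6 / Real.pi * (1 / 2 - √3 / 4) * (Real.pi / 6 - t) ≤
      6 / Real.pi * g (Real.pi / 6) * t - g t := by
  have hpi := Real.pi_pos
  have hc := strictConcaveOn_sin_Icc.concaveOn
  have h2 := hc.2 (show Real.pi / 6 ∈ Icc 0 Real.pi from ⟨by positivity, by linarith⟩)
    (show Real.pi / 3 ∈ Icc 0 Real.pi from ⟨by positivity, by linarith⟩)
    (show 0 ≤ 2 - 12 * t / Real.pi by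
      rw [sub_nonneg, div_le_iff₀ hpi]
      linarith)
    (show 0 ≤ 12 * t / Real.pi - 1 by
      rw [sub_nonneg, le_div_iff₀ hpi]
      linarith) (by ring)
  simp only [smul_eq_mul, Real.sin_pi_div_six, Real.sin_pi_div_three] at h2
  have h3 : (2 - 12 * t / Real.pi) * (Real.pi / 6) + (12 * t / Real.pi - 1) * (Real.pi / 3) =
      2 * t := by
    field_simp
    ring
  rw [h3] at h2
  rw [g_eq t, g_six]
  have h4 : 6 / Real.pi * (Real.pi / 6 - √3 / 4) * t - (t - Real.sin (2 * t) / 2) =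
      6 / Real.pi * (1 / 2 - √3 / 4) * (Real.pi / 6 - t) + (Real.sin (2 * t) -
        ((2 - 12 * t / Real.pi) * (1 / 2) + (12 * t / Real.pi - 1) * (√3 / 2))) / 2 := by
    field_simp
    ring
  rw [h4]
  linarith

theorem arc : S_arc := by
  classical
  intro ι s α θ hα hd
  have hpi := Real.pi_pos
  obtain ⟨hc0, hc1⟩ := consts
  obtain ⟨c0, hc0e⟩ : ∃ c0 : ℝ, c0 = 6 / Real.pi * g (Real.pi / 6) := ⟨_, rfl⟩
  obtain ⟨c1, hc1e⟩ : ∃ c1 : ℝ, c1 = 6 / Real.pi * (1 / 2 - √3 / 4) := ⟨_, rfl⟩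
  rw [← hc0e] at hc0
  rw [← hc1e] at hc1
  have hlow : ∀ t, 0 ≤ t → t ≤ Real.pi / 12 → c1 * t ≤ c0 * t - g t := by
    intro t h0 h1
    rw [hc0e, hc1e]
    exact h_low t h0 h1
  have hhigh : ∀ t, Real.pi / 12 ≤ t → t ≤ Real.pi / 6 → c1 * (Real.pi / 6 - t) ≤ c0 * t - g t := by
    intro t h0 h1
    rw [hc0e, hc1e]
    exact h_high t h0 h1
  have hg6 : 6 * g (Real.pi / 6) = c0 * Real.pi := by
    rw [hc0e]
    field_simp
  rw [hg6]
  have hsum : ∑ j ∈ s, α j ≤ Real.pi :=
    sum_le s α θ (fun j hj => ⟨(hα j hj).1, by linarith [(hα j hj).2]⟩) hd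
  have hnn : ∀ j ∈ s, 0 ≤ c0 * α j - g (α j) := by
    intro j hj
    obtain ⟨h1, h2⟩ := hα j hj
    rcases le_total (α j) (Real.pi / 12) with h | h
    · exact le_trans (mul_nonneg (by linarith) h1) (hlow _ h1 h)
    · exact le_trans (mul_nonneg (by linarith) (by linarith)) (hhigh _ h h2)
  have hdec : c0 * Real.pi - ∑ j ∈ s, g (α j) =
      c0 * (Real.pi - ∑ j ∈ s, α j) + ∑ j ∈ s, (c0 * α j - g (α j)) := by
    rw [Finset.sum_sub_distrib, ← Finset.mul_sum]
    ring
  have hS : 0 ≤ ∑ j ∈ s, (c0 * α j - g (α j)) := Finset.sum_nonneg hnn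
  have hT : 0 ≤ c0 * (Real.pi - ∑ j ∈ s, α j) := mul_nonneg (by linarith) (by linarith)
  obtain ⟨e, he⟩ : ∃ e : ℝ, e = c0 * Real.pi - ∑ j ∈ s, g (α j) := ⟨_, rfl⟩
  rw [← he] at hdec
  refine ⟨by linarith, ?_⟩
  rw [← he]
  intro hsmall θ₀
  -- strong arcs
  have hstrong : ∀ j ∈ s, Real.pi / 12 ≤ α j → Real.pi / 6 - α j ≤ 8 * e := by
    intro j hj h
    have h1 := hhigh _ h (hα j hj).2
    have h2 : c0 * α j - g (α j) ≤ ∑ j ∈ s, (c0 * α j - g (α j)) :=
      Finset.single_le_sum (f := fun j => c0 * α j - g (α j)) hnn hj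
    have h3 : 1 / 8 * (Real.pi / 6 - α j) ≤ c1 * (Real.pi / 6 - α j) :=
      mul_le_mul_of_nonneg_right hc1 (by linarith [(hα j hj).2])
    linarith
  by_contra hcon
  push Not at hcon
  obtain ⟨A, hA⟩ : ∃ A : Finset ι, A = s.filter fun j => Real.pi / 12 ≤ α j := ⟨_, rfl⟩
  obtain ⟨B, hB⟩ : ∃ B : Finset ι, B = A.filter fun j => dist (θ j) θ₀ ≤ 5 * Real.pi / 12 :=
    ⟨_, rfl⟩
  obtain ⟨F, hF⟩ : ∃ F : Finset ι, F = A.filter fun j => ¬ dist (θ j) θ₀ ≤ 5 * Real.pi / 12 :=
    ⟨_, rfl⟩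
  have hB1 : B.card ≤ 1 := by
    rw [Finset.card_le_one]
    intro j hj k hk
    rw [hB, Finset.mem_filter, hA, Finset.mem_filter] at hj hk
    by_contra hjk
    have h1 := hcon j hj.1.1 k hk.1.1 hjk hj.2 hk.2 (hstrong j hj.1.1 hj.1.2)
    linarith [hstrong k hk.1.1 hk.1.2]
  have hsB : ∑ j ∈ B, α j ≤ Real.pi / 6 := by
    have h1 : ∑ j ∈ B, α j ≤ ∑ _j ∈ B, Real.pi / 6 := by
      refine Finset.sum_le_sum fun j hj => ?_
      rw [hB, Finset.mem_filter, hA, Finset.mem_filter] at hj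
      exact (hα j hj.1.1).2
    rw [Finset.sum_const, nsmul_eq_mul] at h1
    have h2 : (B.card : ℝ) ≤ 1 := by exact_mod_cast hB1
    nlinarith
  -- the far strong arcs and the ball around `θ₀`
  have hFs : ∑ j ∈ F, α j + Real.pi / 4 ≤ Real.pi := by
    have h1 := sum_le (Finset.insertNone F) (fun o : Option ι => o.elim (Real.pi / 4) α)
      (fun o => o.elim θ₀ θ) ?_ ?_
    · rw [Finset.sum_insertNone] at h1
      simp only [Option.elim] at h1
      linarith
    · intro o ho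
      cases o with
      | none => exact ⟨by simp only [Option.elim]; linarith, by simp only [Option.elim]; linarith⟩
      | some j =>
        have hj := Finset.some_mem_insertNone.1 ho
        rw [hF, Finset.mem_filter, hA, Finset.mem_filter] at hj
        simp only [Option.elim]
        exact ⟨(hα j hj.1.1).1, by linarith [(hα j hj.1.1).2]⟩
    · intro o ho o' ho' hne
      cases o with
      | none =>
        cases o' with
        | none => exact absurd rfl hne
        | some j =>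
          have hj := Finset.some_mem_insertNone.1 ho'
          rw [hF, Finset.mem_filter, hA, Finset.mem_filter] at hj
          simp only [Option.elim]
          rw [dist_comm]
          have h5 := hj.2
          push Not at h5
          linarith [(hα j hj.1.1).2]
      | some j =>
        have hj := Finset.some_mem_insertNone.1 ho
        rw [hF, Finset.mem_filter, hA, Finset.mem_filter] at hj
        cases o' with
        | none =>
          simp only [Option.elim]
          have h5 := hj.2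
          push Not at h5
          linarith [(hα j hj.1.1).2]
        | some k =>
          have hk := Finset.some_mem_insertNone.1 ho'
          rw [hF, Finset.mem_filter, hA, Finset.mem_filter] at hk
          simp only [Option.elim]
          exact hd j hj.1.1 k hk.1.1 (fun h => hne (by rw [h]))
  have hAB : ∑ j ∈ A, α j = ∑ j ∈ B, α j + ∑ j ∈ F, α j := by
    rw [hB, hF, Finset.sum_filter_add_sum_filter_not]
  have hsA : ∑ j ∈ s, α j = ∑ j ∈ A, α j + ∑ j ∈ s.filter (fun j => ¬ Real.pi / 12 ≤ α j), α j := by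
    rw [hA, Finset.sum_filter_add_sum_filter_not]
  have hweak : ∑ j ∈ s.filter (fun j => ¬ Real.pi / 12 ≤ α j), α j ≤ 8 * e := by
    have h1 : ∑ j ∈ s.filter (fun j => ¬ Real.pi / 12 ≤ α j), 1 / 8 * α j ≤
        ∑ j ∈ s.filter (fun j => ¬ Real.pi / 12 ≤ α j), (c0 * α j - g (α j)) := by
      refine Finset.sum_le_sum fun j hj => ?_
      rw [Finset.mem_filter] at hj
      have h5 := hj.2
      push Not at h5
      refine le_trans ?_ (hlow _ (hα j hj.1).1 h5.le)
      exact mul_le_mul_of_nonneg_right hc1 (hα j hj.1).1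
    have h2 : ∑ j ∈ s.filter (fun j => ¬ Real.pi / 12 ≤ α j), (c0 * α j - g (α j)) ≤
        ∑ j ∈ s, (c0 * α j - g (α j)) :=
      Finset.sum_le_sum_of_subset_of_nonneg (Finset.filter_subset _ _) (fun j hj _ => hnn j hj)
    rw [← Finset.mul_sum] at h1
    linarith
  have hdef : Real.pi - ∑ j ∈ s, α j ≤ 6 * e := by
    have h1 : 1 / 6 * (Real.pi - ∑ j ∈ s, α j) ≤ c0 * (Real.pi - ∑ j ∈ s, α j) :=
      mul_le_mul_of_nonneg_right hc0 (by linarith)
    linarith
  have hpi3 := Real.pi_gt_three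
  linarith

end Pool.Agent.H284.HD610
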